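import Pool.Agent.Helper5_PermPattern.Defs

set_option autoImplicit false

namespace Pool.Agent.Helper5PermPattern
namespace FinPerm

/-- the one-line word -/
def word (σ : FinPerm) : List ℕ := List.ofFn (fun i => (σ.perm i : ℕ))

@[simp] theorem length_word (σ : FinPerm) : (word σ).length = σ.len := by simp [word]

theorem word_get (σ : FinPerm) (i : ℕ) (h : i < (word σ).length) :
    (word σ)[i] = (σ.perm ⟨i, by simpa using h⟩ : ℕ) := by
  simp [word]

/-- same relative order, as a boolean -/
def sameB (a b : List ℕ) : Bool :=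
  (a.length == b.length) &&
    (List.range a.length).all fun i => (List.range a.length).all fun j =>
      (decide (a.getD i 0 < a.getD j 0)) == (decide (b.getD i 0 < b.getD j 0))

theorem sameB_iff (a b : List ℕ) : sameB a b = true ↔ a.length = b.length ∧
    ∀ i j, i < a.length → j < a.length → (a.getD i 0 < a.getD j 0 ↔ b.getD i 0 < b.getD j 0) := by
  simp only [sameB, Bool.and_eq_true, beq_iff_eq, List.all_eq_true, List.mem_range,
    decide_eq_decide]
  constructor
  · rintro ⟨h1, h2⟩
    exact ⟨h1, fun i j hi hj => h2 i hi j hj⟩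
  · rintro ⟨h1, h2⟩
    exact ⟨h1, fun i hi j hj => h2 i j hi hj⟩

/-- containment of words, as a boolean -/
def leB (a b : List ℕ) : Bool := b.sublists.any fun q => sameB a q

theorem word_getD (σ : FinPerm) (i : ℕ) (h : i < σ.len) :
    (word σ).getD i 0 = (σ.perm ⟨i, h⟩ : ℕ) := by
  rw [List.getD_eq_getElem _ _ (by simpa using h)]
  exact word_get σ i (by simpa using h)

theorem le_iff_exists_sublist (σ π : FinPerm) :
    σ ≤ π ↔ ∃ q, q.Sublist (word π) ∧ sameB (word σ) q = true := by
  rw [le_def]
  constructor
  · rintro ⟨f, hf, hf'⟩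
    refine ⟨List.ofFn (fun i => (π.perm (f i) : ℕ)), ?_, ?_⟩
    · rw [List.sublist_iff_exists_fin_orderEmbedding_get_eq]
      let g : Fin σ.len ↪o Fin π.len := OrderEmbedding.ofStrictMono f hf
      refine ⟨((Fin.castOrderIso (by simp)).toOrderEmbedding.trans g).trans
        (Fin.castOrderIso (by simp)).toOrderEmbedding, ?_⟩
      intro ix
      simp [word, g]
      rfl
    · rw [sameB_iff]
      refine ⟨by simp, ?_⟩
      intro i j hi hj
      simp only [length_word] at hi hj
      rw [word_getD σ i hi, word_getD σ j hj]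
      rw [List.getD_eq_getElem _ _ (by simpa using hi), List.getD_eq_getElem _ _ (by simpa using hj)]
      simp only [List.getElem_ofFn, Fin.val_fin_lt]
      exact hf' _ _
  · rintro ⟨q, hq, hs⟩
    rw [List.sublist_iff_exists_fin_orderEmbedding_get_eq] at hq
    obtain ⟨f, hf⟩ := hq
    rw [sameB_iff] at hs
    obtain ⟨hlen, hs⟩ := hs
    rw [length_word] at hlen
    refine ⟨fun i => Fin.cast (by simp) (f (Fin.cast hlen i)), ?_, ?_⟩
    · intro i j hij
      have : f (Fin.cast hlen i) < f (Fin.cast hlen j) := f.strictMono (by simpa using hij)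
      simpa using this
    · intro i j
      have h := hs i j (by simp) (by simp)
      rw [word_getD σ i i.2, word_getD σ j j.2] at h
      have e : ∀ k : Fin σ.len, q.getD k 0 = (π.perm (Fin.cast (by simp) (f (Fin.cast hlen k))) : ℕ) := by
        intro k
        rw [List.getD_eq_getElem _ _ (by rw [← hlen]; exact k.2)]
        have := hf (Fin.cast hlen k)
        simp only [List.get_eq_getElem] at this
        simp only [Fin.val_cast] at this
        rw [this]
        simp [word]
        rfl
      rw [e i, e j] at h
      simpa using h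

theorem le_iff_leB (σ π : FinPerm) : σ ≤ π ↔ leB (word σ) (word π) = true := by
  rw [le_iff_exists_sublist]
  simp only [leB, List.any_eq_true, List.mem_sublists]

instance : DecidableLE FinPerm := fun σ π => decidable_of_iff _ (le_iff_leB σ π).symm

theorem eq_of_sameB {σ τ : FinPerm} {q : List ℕ} (h1 : sameB (word σ) q = true)
    (h2 : sameB (word τ) q = true) : σ = τ := by
  rw [sameB_iff] at h1 h2
  obtain ⟨l1, h1⟩ := h1
  obtain ⟨l2, h2⟩ := h2
  rw [length_word] at l1 l2
  obtain ⟨n, p⟩ := σ
  obtain ⟨m, p'⟩ := τ
  simp only at l1 l2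
  obtain rfl : n = m := l1.trans l2.symm
  congr 1
  apply perm_eq_of_sameOrder
  intro i j
  have a := h1 i j (by simp) (by simp)
  have b := h2 i j (by simp) (by simp)
  rw [word_getD _ _ i.2, word_getD _ _ j.2] at a
  rw [word_getD _ _ i.2, word_getD _ _ j.2] at b
  simp only [Fin.eta, Fin.val_fin_lt] at a b
  exact a.trans b.symm

/-- If every subword of `π` is order isomorphic to the word of a member of `L`, then every
`τ ≤ π` is a member of `L`. -/
theorem mem_of_le {π : FinPerm} {L : List FinPerm}
    (h : ∀ q ∈ (word π).sublists, ∃ ρ ∈ L, sameB (word ρ) q = true) {τ : FinPerm} (hτ : τ ≤ π) :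
    τ ∈ L := by
  rw [le_iff_exists_sublist] at hτ
  obtain ⟨q, hq, hs⟩ := hτ
  obtain ⟨ρ, hρ, hs'⟩ := h q (List.mem_sublists.2 hq)
  rwa [eq_of_sameB hs hs']

end FinPerm

/-- Computing Möbius values from a finite table. -/
theorem mu_eq_of_table {P : Type*} [PartialOrder P] [LocallyFiniteOrder P] [DecidableEq P]
    {n : ℕ} (p : Fin n → P) (hp : Function.Injective p) (s : Fin n)
    (hclosed : ∀ x j, p s ≤ x → x ≤ p j → ∃ i, x = p i)
    (M : Fin n → Fin n → Bool) (hM : ∀ i j, M i j = true ↔ p i ≤ p j)
    (m : Fin n → ℤ) (hs : m s = 1)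
    (hm : ∀ j, j ≠ s → M s j = true →
      m j = - ∑ i : Fin n, if M s i && M i j && (i != j) then m i else 0)
    (j : Fin n) (hj : M s j = true) : IncidenceAlgebra.mu ℤ (p s) (p j) = m j := by
  classical
  have key : ∀ N : ℕ, ∀ j, M s j = true → (Finset.Icc (p s) (p j)).card ≤ N →
      IncidenceAlgebra.mu ℤ (p s) (p j) = m j := by
    intro N
    induction N with
    | zero =>
      intro j hj hc
      have : p j ∈ Finset.Icc (p s) (p j) := Finset.mem_Icc.2 ⟨(hM s j).1 hj, le_rfl⟩
      have := Finset.card_pos.2 ⟨_, this⟩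
      omega
    | succ N ih =>
      intro j hj hc
      by_cases hjs : j = s
      · subst hjs
        rw [IncidenceAlgebra.mu_self, hs]
      · have hne : p s ≠ p j := fun h => hjs (hp h).symm
        rw [IncidenceAlgebra.mu_eq_neg_sum_Ico_of_ne hne, hm j hjs hj]
        congr 1
        have himg : Finset.Ico (p s) (p j) =
            (Finset.univ.filter fun i => (M s i && M i j && (i != j)) = true).image p := by
          ext x
          simp only [Finset.mem_Ico, Finset.mem_image, Finset.mem_filter, Finset.mem_univ,
            true_and, Bool.and_eq_true, bne_iff_ne]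
          constructor
          · rintro ⟨h1, h2⟩
            obtain ⟨i, rfl⟩ := hclosed x j h1 h2.le
            refine ⟨i, ⟨⟨(hM _ _).2 h1, (hM _ _).2 h2.le⟩, ?_⟩, rfl⟩
            rintro rfl
            exact lt_irrefl _ h2
          · rintro ⟨i, ⟨⟨h1, h2⟩, h3⟩, rfl⟩
            refine ⟨(hM _ _).1 h1, lt_of_le_of_ne ((hM _ _).1 h2) ?_⟩
            intro h
            exact h3 (hp h)
        rw [himg, Finset.sum_image (fun a _ b _ h => hp h), Finset.sum_filter]
        apply Finset.sum_congr rfl
        intro i _
        by_cases hi : (M s i && M i j && (i != j)) = true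
        · rw [if_pos hi, if_pos hi]
          have hi' := hi
          simp only [Bool.and_eq_true, bne_iff_ne] at hi'
          apply ih i hi'.1.1
          have hlt : p i < p j := lt_of_le_of_ne ((hM _ _).1 hi'.1.2) (fun h => hi'.2 (hp h))
          have : Finset.Icc (p s) (p i) ⊂ Finset.Icc (p s) (p j) :=
            Finset.Icc_ssubset_Icc_right ((hM _ _).1 hj) le_rfl hlt
          have := Finset.card_lt_card this
          omega
        · rw [if_neg hi, if_neg hi]
  exact key _ j hj le_rfl

end Pool.Agent.Helper5PermPattern
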