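import Mathlib

/-!
# The permutation pattern poset, its Möbius function and the complexes `Δ(σ,π)` and `Γ(σ,π)`
-/

set_option autoImplicit false

namespace Pool.Agent.Helper5PermPattern

/-- A finite permutation: a length `len` together with a permutation of `{0, …, len - 1}`. -/
structure FinPerm where
  /-- the length of the permutation -/
  len : ℕ
  /-- the permutation, in one-line form `perm 0, perm 1, …` (values shifted down by one) -/
  perm : Equiv.Perm (Fin len)

namespace FinPerm

/-- Pattern containment: `σ ≤ π` if `π` has a subsequence (the entries at the positions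
`f 0 < f 1 < …`) whose entries are in the same relative order as the entries of `σ`. -/
instance : LE FinPerm where
  le σ π := ∃ f : Fin σ.len → Fin π.len, StrictMono f ∧
    ∀ i j, σ.perm i < σ.perm j ↔ π.perm (f i) < π.perm (f j)

theorem le_def (σ π : FinPerm) : σ ≤ π ↔ ∃ f : Fin σ.len → Fin π.len, StrictMono f ∧
    ∀ i j, σ.perm i < σ.perm j ↔ π.perm (f i) < π.perm (f j) := Iff.rfl

theorem strictMono_fin_eq_id {n : ℕ} (f : Fin n → Fin n) (hf : StrictMono f) : f = id := by
  have h1 : ∀ i, i ≤ f i := fun i => hf.id_le i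
  have h2 : ∀ i, f i ≤ i := fun i => hf.le_id i
  funext i
  exact le_antisymm (h2 i) (h1 i)

theorem perm_eq_of_sameOrder {n : ℕ} (p q : Equiv.Perm (Fin n))
    (h : ∀ i j, p i < p j ↔ q i < q j) : p = q := by
  have hm : StrictMono (fun x => q (p.symm x)) := by
    intro a b hab
    have := (h (p.symm a) (p.symm b)).1 (by simpa using hab)
    exact this
  have := strictMono_fin_eq_id _ hm
  ext i
  have h3 := congrFun this (p i)
  simp only [Equiv.symm_apply_apply, id] at h3
  rw [h3]

theorem len_le_of_le {σ π : FinPerm} (h : σ ≤ π) : σ.len ≤ π.len := by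
  obtain ⟨f, hf, -⟩ := h
  simpa using Fintype.card_le_of_injective f hf.injective

instance : PartialOrder FinPerm where
  le_refl σ := ⟨id, strictMono_id, fun _ _ => Iff.rfl⟩
  le_trans a b c := by
    rintro ⟨f, hf, hf'⟩ ⟨g, hg, hg'⟩
    exact ⟨g ∘ f, hg.comp hf, fun i j => (hf' i j).trans (hg' (f i) (f j))⟩
  le_antisymm a b := by
    intro h1 h2
    have hlen : a.len = b.len := le_antisymm (len_le_of_le h1) (len_le_of_le h2)
    obtain ⟨n, p⟩ := a
    obtain ⟨m, q⟩ := b
    simp only at hlen
    subst hlen
    obtain ⟨f, hf, hf'⟩ := h1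
    have hid := strictMono_fin_eq_id f hf
    subst hid
    have := perm_eq_of_sameOrder p q hf'
    subst this
    rfl

theorem finite_Iic (π : FinPerm) : {σ : FinPerm | σ ≤ π}.Finite := by
  have : {σ : FinPerm | σ ≤ π} ⊆ ⋃ n ∈ Set.Iic π.len,
      Set.range (fun p : Equiv.Perm (Fin n) => (⟨n, p⟩ : FinPerm)) := by
    intro σ hσ
    simp only [Set.mem_iUnion]
    exact ⟨σ.len, len_le_of_le hσ, σ.perm, rfl⟩
  refine Set.Finite.subset ?_ this
  exact Set.Finite.biUnion (Set.finite_Iic _) (fun n _ => Set.finite_range _)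

noncomputable instance : LocallyFiniteOrder FinPerm :=
  LocallyFiniteOrder.ofFiniteIcc fun _ b => (finite_Iic b).subset fun _ hx => hx.2

noncomputable instance : DecidableEq FinPerm := Classical.decEq _

/-- The Möbius function `μ(σ,τ)` of the poset of all finite permutations
(Mathlib's Möbius function of the incidence algebra). It satisfies `μ(σ,σ) = 1` and
`μ(σ,τ) = -∑_{σ ≤ ρ < τ} μ(σ,ρ)` for `σ < τ`. -/
noncomputable def mobius (σ τ : FinPerm) : ℤ := IncidenceAlgebra.mu ℤ σ τ

/-- `Δ(σ,π)`: the order complex of the open interval `(σ,π)`. Its faces are the (nonempty)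
finite chains of elements `τ` with `σ < τ < π`. -/
def Delta (σ π : FinPerm) : PreAbstractSimplicialComplex FinPerm where
  faces := {s | s.Nonempty ∧ (∀ τ ∈ s, σ < τ ∧ τ < π) ∧ ∀ a ∈ s, ∀ b ∈ s, a ≤ b ∨ b ≤ a}
  isRelLowerSet_faces := by
    intro s hs
    refine ⟨hs.1, fun t hts ht => ⟨ht, fun τ hτ => hs.2.1 τ (hts hτ),
      fun a ha b hb => hs.2.2 a (hts ha) b (hts hb)⟩⟩

end FinPerm

/-- The subcomplex of `K` induced by a set `V` of vertices: the faces of `K` all of whose
vertices lie in `V`. -/
def inducedSubcomplex {ι : Type} (K : PreAbstractSimplicialComplex ι) (V : Set ι) :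
    PreAbstractSimplicialComplex ι where
  faces := {s | s ∈ K.faces ∧ ∀ x ∈ s, x ∈ V}
  isRelLowerSet_faces := by
    intro s hs
    have h := K.isRelLowerSet_faces hs.1
    exact ⟨h.1, fun t hts ht => ⟨h.2 hts ht, fun x hx => hs.2 x (hts hx)⟩⟩

/-- A facet of `K` is a face that is maximal under inclusion. -/
def IsFacet {ι : Type} (K : PreAbstractSimplicialComplex ι) (s : Finset ι) : Prop :=
  s ∈ K.faces ∧ ∀ t ∈ K.faces, s ⊆ t → t = s

/-- A simplicial complex is pure if all of its facets have the same dimension, that is, the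
same number of vertices. -/
def IsPure {ι : Type} (K : PreAbstractSimplicialComplex ι) : Prop :=
  ∀ s t : Finset ι, IsFacet K s → IsFacet K t → s.card = t.card

end Pool.Agent.Helper5PermPattern
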